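import Mathlib

/-!
# Theta functions of positive definite binary forms and the Epstein zeta function

For real `a > 0`, `b`, `c` with `a c - b² = 1` and `q(m,n) = a m² + 2 b m n + c n²`:
`θ(t) = ∑ exp(-π q(m,n) t)` satisfies `θ(1/t) = t θ(t)`.
-/

set_option autoImplicit false

noncomputable section

open Real Complex Filter Topology Asymptotics Set MeasureTheory

namespace EpsteinFE

/-- The quadratic form, as a real function on `ℤ × ℤ`. -/
def qf (a b c : ℝ) (p : ℤ × ℤ) : ℝ := a * (p.1 : ℝ) ^ 2 + 2 * b * p.1 * p.2 + c * (p.2 : ℝ) ^ 2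

/-- Data of a positive definite form of determinant one. -/
structure PD1 (a b c : ℝ) : Prop where
  ha : 0 < a
  hdet : a * c - b ^ 2 = 1

variable {a b c : ℝ}

theorem PD1.hc (h : PD1 a b c) : 0 < c := by
  have h1 := h.ha
  have h2 := h.hdet
  by_contra hc
  push Not at hc
  nlinarith [sq_nonneg b]

/-- The lower bound for the form. -/
def mu (a c : ℝ) : ℝ := 1 / (a + c)

theorem PD1.mu_pos (h : PD1 a b c) : 0 < mu a c := by
  unfold mu
  have := h.ha
  have := h.hc
  positivity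

theorem PD1.qf_ge (h : PD1 a b c) (p : ℤ × ℤ) :
    mu a c * ((p.1 : ℝ) ^ 2 + (p.2 : ℝ) ^ 2) ≤ qf a b c p := by
  have h1 := h.ha
  have h2 := h.hc
  have h3 := h.hdet
  unfold mu qf
  rw [one_div, inv_mul_le_iff₀ (by positivity)]
  nlinarith [sq_nonneg (a * (p.1 : ℝ) + b * p.2), sq_nonneg (b * (p.1 : ℝ) + c * p.2)]

theorem PD1.qf_nonneg (h : PD1 a b c) (p : ℤ × ℤ) : 0 ≤ qf a b c p :=
  le_trans (mul_nonneg h.mu_pos.le (by positivity)) (h.qf_ge p)

theorem one_le_sq_add_sq {p : ℤ × ℤ} (hp : p ≠ 0) : (1 : ℝ) ≤ (p.1 : ℝ) ^ 2 + (p.2 : ℝ) ^ 2 := by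
  have : (1 : ℤ) ≤ p.1 ^ 2 + p.2 ^ 2 := by
    by_contra hcon
    push Not at hcon
    have h1 : p.1 ^ 2 = 0 := by nlinarith [sq_nonneg p.1, sq_nonneg p.2]
    have h2 : p.2 ^ 2 = 0 := by nlinarith [sq_nonneg p.1, sq_nonneg p.2]
    apply hp
    ext
    · simpa using h1
    · simpa using h2
  exact_mod_cast this

theorem PD1.mu_le_qf (h : PD1 a b c) {p : ℤ × ℤ} (hp : p ≠ 0) : mu a c ≤ qf a b c p := by
  refine le_trans ?_ (h.qf_ge p)
  have := one_le_sq_add_sq hp
  nlinarith [h.mu_pos]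

theorem PD1.qf_pos (h : PD1 a b c) {p : ℤ × ℤ} (hp : p ≠ 0) : 0 < qf a b c p :=
  lt_of_lt_of_le h.mu_pos (h.mu_le_qf hp)

theorem summable_gauss {t : ℝ} (ht : 0 < t) : Summable (fun n : ℤ => rexp (-π * (n : ℝ) ^ 2 * t)) := by
  simpa using (HurwitzZeta.hasSum_int_evenKernel 0 ht).summable

theorem summable_gauss2 {t s : ℝ} (ht : 0 < t) (hs : 0 < s) :
    Summable (fun p : ℤ × ℤ => rexp (-π * (p.1 : ℝ) ^ 2 * t) * rexp (-π * (p.2 : ℝ) ^ 2 * s)) :=
  (summable_gauss ht).mul_of_nonneg (summable_gauss hs) (fun _ => (Real.exp_pos _).le)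
    (fun _ => (Real.exp_pos _).le)

theorem PD1.summable_theta (h : PD1 a b c) {t : ℝ} (ht : 0 < t) :
    Summable (fun p : ℤ × ℤ => rexp (-π * qf a b c p * t)) := by
  have hmt : 0 < mu a c * t := mul_pos h.mu_pos ht
  refine (summable_gauss2 hmt hmt).of_nonneg_of_le (fun _ => (Real.exp_pos _).le) (fun p => ?_)
  rw [← Real.exp_add, Real.exp_le_exp]
  have h1 := h.qf_ge p
  have h2 : π * t * (mu a c * ((p.1 : ℝ) ^ 2 + (p.2 : ℝ) ^ 2)) ≤ π * t * qf a b c p :=
    mul_le_mul_of_nonneg_left h1 (by positivity)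
  nlinarith

/-- The theta function (real valued). -/
def theta (a b c t : ℝ) : ℝ := ∑' p : ℤ × ℤ, rexp (-π * qf a b c p * t)

theorem PD1.summable_inner (h : PD1 a b c) {t : ℝ} (ht : 0 < t) (n : ℤ) :
    Summable (fun m : ℤ => rexp (-π * qf a b c (m, n) * t)) := by
  have := (h.summable_theta ht).comp_injective (i := fun m : ℤ => ((m, n) : ℤ × ℤ))
    (fun x y hxy => by simpa using hxy)
  exact this

theorem I_mul_neg (x : ℂ) : I * -(I * x) = x := by
  linear_combination (-x) * I_sq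

/-- Functional equation of the theta function. -/
theorem PD1.theta_feq (h : PD1 a b c) {t : ℝ} (ht : 0 < t) :
    theta a b c (1 / t) = t * theta a b c t := by
  have ha := h.ha
  have hac : (a : ℂ) ≠ 0 := by exact_mod_cast ha.ne'
  have htc : (t : ℂ) ≠ 0 := by exact_mod_cast ht.ne'
  have hc : c = (1 + b ^ 2) / a := by
    rw [eq_div_iff ha.ne']; linarith [h.hdet]
  set F : ℤ → ℤ → ℂ := fun n k =>
    cexp (-π * (t / a) * n ^ 2 + 2 * π * (-(I * (k * b / a))) * n) *
      cexp (-π * (1 / (a * t)) * k ^ 2) with hF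
  have hFnorm : ∀ n k : ℤ, ‖F n k‖
      = rexp (-π * (n : ℝ) ^ 2 * (t / a)) * rexp (-π * (k : ℝ) ^ 2 * (1 / (a * t))) := by
    intro n k
    simp only [hF, norm_mul, Complex.norm_exp]
    congr 2
    · have : (-π * (t / a) * n ^ 2 + 2 * π * (-(I * (k * b / a))) * n : ℂ)
          = ((-π * (n : ℝ) ^ 2 * (t / a) : ℝ) : ℂ) + ((-(2 * π * (k * b / a) * n) : ℝ) : ℂ) * I := by
        push_cast; ring
      rw [this, add_re, ofReal_re, re_ofReal_mul, I_re, mul_zero, add_zero]
    · have : (-π * (1 / (a * t)) * k ^ 2 : ℂ) = ((-π * (k : ℝ) ^ 2 * (1 / (a * t)) : ℝ) : ℂ) := by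
        push_cast; ring
      rw [this, ofReal_re]
  have hFsum : Summable (fun p : ℤ × ℤ => F p.1 p.2) := by
    apply Summable.of_norm
    simp only [hFnorm]
    exact summable_gauss2 (by positivity) (by positivity)
  have step1 : ∀ n : ℤ, (∑' m : ℤ, cexp (-π * qf a b c (m, n) * t))
      = (1 / (a * t) : ℂ) ^ (1 / 2 : ℂ) * ∑' k : ℤ, F n k := by
    intro n
    have hre : 0 < ((1 / (a * t) : ℂ)).re := by
      have : (1 / (a * t) : ℂ) = ((1 / (a * t) : ℝ) : ℂ) := by push_cast; rfl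
      rw [this, ofReal_re]
      positivity
    have hne : ((1 / (a * t) : ℂ)) ^ (1 / 2 : ℂ) ≠ 0 := by
      rw [Ne, cpow_eq_zero_iff]
      intro hh
      exact one_div_ne_zero (mul_ne_zero hac htc) hh.1
    have hP := Complex.tsum_exp_neg_quadratic hre (-(I * (n * b / a)))
    simp only [I_mul_neg] at hP
    have e1 : ∀ m : ℤ, cexp (-π * qf a b c (m, n) * t)
        = cexp (-π * (t / a) * n ^ 2) * cexp (-π / (1 / (a * t)) * (m + n * b / a) ^ 2) := by
      intro m
      rw [← Complex.exp_add]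
      congr 1
      unfold qf
      rw [hc]
      push_cast
      field_simp
      ring
    have e2 : ∀ k : ℤ, F n k = cexp (-π * (t / a) * n ^ 2) *
        cexp (-π * (1 / (a * t)) * k ^ 2 + 2 * π * -(I * (n * b / a)) * k) := by
      intro k
      simp only [hF, ← Complex.exp_add]
      congr 1
      ring
    simp only [e1, e2]
    rw [tsum_mul_left, tsum_mul_left, hP]
    field_simp
  have step2 : ∀ k : ℤ, (∑' n : ℤ, F n k)
      = 1 / (t / a : ℂ) ^ (1 / 2 : ℂ) * ∑' l : ℤ, cexp (-π * qf a b c (l, k) * ((1 / t : ℝ) : ℂ)) := by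
    intro k
    have hre : 0 < ((t / a : ℂ)).re := by
      have : (t / a : ℂ) = ((t / a : ℝ) : ℂ) := by push_cast; rfl
      rw [this, ofReal_re]
      positivity
    have hP := Complex.tsum_exp_neg_quadratic hre (-(I * (k * b / a)))
    simp only [I_mul_neg] at hP
    simp only [hF]
    rw [tsum_mul_right, hP, mul_assoc, ← tsum_mul_right]
    congr 1
    refine tsum_congr (fun l => ?_)
    rw [← Complex.exp_add]
    congr 1
    unfold qf
    rw [hc]
    push_cast
    field_simp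
    ring
  have hconst : (1 / (a * t) : ℂ) ^ (1 / 2 : ℂ) * (1 / (t / a : ℂ) ^ (1 / 2 : ℂ)) = 1 / t := by
    have h1 : (1 / (a * t) : ℂ) = ((1 / (a * t) : ℝ) : ℂ) := by push_cast; rfl
    have h2 : (t / a : ℂ) = ((t / a : ℝ) : ℂ) := by push_cast; rfl
    have h3 : (1 / 2 : ℂ) = ((1 / 2 : ℝ) : ℂ) := by push_cast; rfl
    rw [h1, h2, h3, ← ofReal_cpow (by positivity), ← ofReal_cpow (by positivity)]
    rw [← ofReal_one, ← ofReal_div, ← ofReal_div, ← ofReal_mul]
    congr 1
    rw [← Real.sqrt_eq_rpow, ← Real.sqrt_eq_rpow, mul_one_div, ← Real.sqrt_div (by positivity)]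
    have : 1 / (a * t) / (t / a) = (1 / t) ^ 2 := by field_simp
    rw [this, Real.sqrt_sq (by positivity)]
  -- the two iterated sums
  have hsum_t : Summable (fun p : ℤ × ℤ => cexp (-π * qf a b c p * t)) := by
    apply Summable.of_norm
    refine (h.summable_theta ht).congr (fun p => ?_)
    rw [Complex.norm_exp]
    congr 1
    have : (-π * qf a b c p * t : ℂ) = ((-π * qf a b c p * t : ℝ) : ℂ) := by push_cast; rfl
    rw [this, ofReal_re]
  have ht' : 0 < 1 / t := by positivity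
  have hsum_t' : Summable (fun p : ℤ × ℤ => cexp (-π * qf a b c p * ((1 / t : ℝ) : ℂ))) := by
    apply Summable.of_norm
    refine (h.summable_theta ht').congr (fun p => ?_)
    rw [Complex.norm_exp]
    congr 1
    have : (-π * qf a b c p * ((1 / t : ℝ) : ℂ) : ℂ) = ((-π * qf a b c p * (1 / t) : ℝ) : ℂ) := by
      push_cast; rfl
    rw [this, ofReal_re]
  have hth : ∀ s : ℝ, ((theta a b c s : ℝ) : ℂ) = ∑' p : ℤ × ℤ, cexp (-π * qf a b c p * s) := by
    intro s
    rw [theta, ofReal_tsum]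
    refine tsum_congr (fun p => ?_)
    push_cast
    rfl
  have key : ((theta a b c t : ℝ) : ℂ) = 1 / t * ((theta a b c (1 / t) : ℝ) : ℂ) := by
    rw [hth, hth]
    have hsw : (∑' p : ℤ × ℤ, cexp (-π * qf a b c p * t))
        = ∑' n : ℤ, ∑' m : ℤ, cexp (-π * qf a b c (m, n) * t) := by
      rw [← (Equiv.prodComm ℤ ℤ).tsum_eq, Summable.tsum_prod]
      · rfl
      · exact (Equiv.prodComm ℤ ℤ).summable_iff.mpr hsum_t
    have hsw' : (∑' p : ℤ × ℤ, cexp (-π * qf a b c p * ((1 / t : ℝ) : ℂ)))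
        = ∑' n : ℤ, ∑' m : ℤ, cexp (-π * qf a b c (m, n) * ((1 / t : ℝ) : ℂ)) := by
      rw [← (Equiv.prodComm ℤ ℤ).tsum_eq, Summable.tsum_prod]
      · rfl
      · exact (Equiv.prodComm ℤ ℤ).summable_iff.mpr hsum_t'
    rw [hsw, hsw']
    simp only [step1]
    rw [tsum_mul_left, ← Summable.tsum_prod (f := fun p : ℤ × ℤ => F p.1 p.2) hFsum,
      ← (Equiv.prodComm ℤ ℤ).tsum_eq, Summable.tsum_prod]
    · change _ * ∑' k : ℤ, ∑' n : ℤ, F n k = _
      simp only [step2]
      rw [tsum_mul_left, ← mul_assoc, hconst]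
    · exact (Equiv.prodComm ℤ ℤ).summable_iff.mpr hFsum
  have : theta a b c t = 1 / t * theta a b c (1 / t) := by exact_mod_cast key
  rw [this]
  field_simp

end EpsteinFE
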