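import Pool.Agent.Hhelper84.Epstein.Theta

/-!
# The Epstein zeta function of a positive definite binary form: continuation and functional
equation
-/

set_option autoImplicit false

noncomputable section

open Real Complex Filter Topology Asymptotics Set MeasureTheory

namespace EpsteinFE

variable {a b c : ℝ}

theorem PD1.continuousOn_theta (h : PD1 a b c) : ContinuousOn (theta a b c) (Ioi 0) := by
  intro t ht
  have ht : 0 < t := ht
  have h1 : ContinuousOn (theta a b c) (Ioi (t / 2)) := by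
    unfold theta
    refine continuousOn_tsum (fun p => ?_) (h.summable_theta (half_pos ht)) (fun p x hx => ?_)
    · fun_prop
    · rw [Real.norm_eq_abs, abs_of_pos (Real.exp_pos _), Real.exp_le_exp]
      have hx : t / 2 < x := hx
      have := h.qf_nonneg p
      have : π * qf a b c p * (t / 2) ≤ π * qf a b c p * x :=
        mul_le_mul_of_nonneg_left hx.le (by positivity)
      linarith
  exact (h1.continuousAt (Ioi_mem_nhds (half_lt_self ht))).continuousWithinAt

theorem PD1.hasSum_theta_sub_one (h : PD1 a b c) {t : ℝ} (ht : 0 < t) :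
    HasSum (fun p : ℤ × ℤ => if p = 0 then 0 else rexp (-π * qf a b c p * t))
      (theta a b c t - 1) := by
  have := hasSum_ite_sub_hasSum (h.summable_theta ht).hasSum (0 : ℤ × ℤ)
  have h0 : qf a b c 0 = 0 := by simp [qf]
  rw [h0] at this
  simpa [theta] using this

theorem PD1.theta_sub_one_nonneg (h : PD1 a b c) {t : ℝ} (ht : 0 < t) :
    0 ≤ theta a b c t - 1 := by
  refine (h.hasSum_theta_sub_one ht).nonneg (fun p => ?_)
  split_ifs
  · exact le_rfl
  · exact (Real.exp_pos _).le

theorem PD1.theta_sub_one_le (h : PD1 a b c) {t : ℝ} (ht : 1 ≤ t) :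
    theta a b c t - 1 ≤ (theta a b c 1 - 1) * rexp (-π * mu a c * (t - 1)) := by
  have h1 := h.hasSum_theta_sub_one (t := t) (by linarith)
  have h2 := (h.hasSum_theta_sub_one (t := 1) one_pos).mul_right (rexp (-π * mu a c * (t - 1)))
  refine hasSum_le (fun p => ?_) h1 h2
  split_ifs with hp
  · simp
  · rw [← Real.exp_add, Real.exp_le_exp]
    have := h.mu_le_qf hp
    have : π * (t - 1) * mu a c ≤ π * (t - 1) * qf a b c p := by
      refine mul_le_mul_of_nonneg_left this ?_
      have := pi_pos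
      nlinarith
    nlinarith

theorem PD1.theta_top (h : PD1 a b c) (r : ℝ) :
    (fun t : ℝ => ((theta a b c t : ℝ) : ℂ) - 1) =O[atTop] (fun t : ℝ => t ^ r) := by
  have hm : 0 < π * mu a c := mul_pos pi_pos h.mu_pos
  have h1 : (fun t : ℝ => ((theta a b c t : ℝ) : ℂ) - 1)
      =O[atTop] (fun t : ℝ => rexp (-(π * mu a c) * t)) := by
    refine IsBigO.of_bound ((theta a b c 1 - 1) * rexp (π * mu a c)) ?_
    filter_upwards [eventually_ge_atTop 1] with t ht
    have e : ((theta a b c t : ℝ) : ℂ) - 1 = ((theta a b c t - 1 : ℝ) : ℂ) := by push_cast; rfl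
    rw [e, Complex.norm_real, Real.norm_eq_abs,
      abs_of_nonneg (h.theta_sub_one_nonneg (by linarith)), Real.norm_eq_abs,
      abs_of_pos (Real.exp_pos _), mul_assoc, ← Real.exp_add]
    refine (h.theta_sub_one_le ht).trans_eq ?_
    congr 2
    ring
  exact h1.trans (isLittleO_exp_neg_mul_rpow_atTop hm r).isBigO

/-- The weak functional equation pair of the theta function. -/
def PD1.pair (h : PD1 a b c) : WeakFEPair ℂ where
  f := fun t => ((theta a b c t : ℝ) : ℂ)
  g := fun t => ((theta a b c t : ℝ) : ℂ)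
  k := 1
  ε := 1
  f₀ := 1
  g₀ := 1
  hf_int := (Complex.continuous_ofReal.comp_continuousOn h.continuousOn_theta).locallyIntegrableOn
    measurableSet_Ioi
  hg_int := (Complex.continuous_ofReal.comp_continuousOn h.continuousOn_theta).locallyIntegrableOn
    measurableSet_Ioi
  hk := one_pos
  hε := one_ne_zero
  h_feq := by
    intro x hx
    have hx : 0 < x := hx
    rw [h.theta_feq hx, Real.rpow_one, one_mul, smul_eq_mul]
    push_cast
    rfl
  hf_top := h.theta_top
  hg_top := h.theta_top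

/-- The completed Epstein zeta function minus its polar part; entire. -/
def PD1.Lam0 (h : PD1 a b c) (s : ℂ) : ℂ := h.pair.Λ₀ s

theorem PD1.differentiable_Lam0 (h : PD1 a b c) : Differentiable ℂ h.Lam0 :=
  h.pair.differentiable_Λ₀

theorem PD1.Lam0_one_sub (h : PD1 a b c) (s : ℂ) : h.Lam0 (1 - s) = h.Lam0 s := by
  have := h.pair.functional_equation₀ s
  have hk : (h.pair.k : ℂ) = 1 := by simp [PD1.pair]
  rw [hk] at this
  unfold PD1.Lam0
  rw [this]
  have he : h.pair.ε = 1 := rfl
  rw [he, one_smul]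
  have hs : h.pair.symm = h.pair := by
    simp [WeakFEPair.symm, PD1.pair]
  rw [hs]

theorem summable_qf_rpow (h : PD1 a b c) {σ : ℝ} (hσ : 1 < σ) :
    Summable (fun p : ℤ × ℤ => 1 / (qf a b c p) ^ σ) := by
  have h1 : Summable (fun x : Fin 2 → ℤ => ‖x‖ ^ (-(2 * σ))) :=
    EisensteinSeries.summable_one_div_norm_rpow (by linarith)
  have h2 : Summable (fun p : ℤ × ℤ => ‖((finTwoArrowEquiv ℤ).symm p : Fin 2 → ℤ)‖ ^ (-(2 * σ))) :=
    ((finTwoArrowEquiv ℤ).symm.summable_iff (f := fun x : Fin 2 → ℤ => ‖x‖ ^ (-(2 * σ)))).mpr h1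
  have hmu := h.mu_pos
  refine (h2.mul_left ((mu a c) ^ (-σ))).of_nonneg_of_le (fun p => ?_) (fun p => ?_)
  · have := h.qf_nonneg p
    positivity
  · by_cases hp : p = 0
    · rw [hp]
      have : qf a b c 0 = 0 := by simp [qf]
      rw [this, Real.zero_rpow (by linarith), div_zero]
      positivity
    · have hq := h.qf_pos hp
      have hN : 0 < ‖((finTwoArrowEquiv ℤ).symm p : Fin 2 → ℤ)‖ := by
        rw [norm_pos_iff]
        intro h0
        apply hp
        have := congrArg (finTwoArrowEquiv ℤ) h0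
        rw [Equiv.apply_symm_apply] at this
        rw [this]
        rfl
      have hNle : ‖((finTwoArrowEquiv ℤ).symm p : Fin 2 → ℤ)‖ ^ 2
          ≤ (p.1 : ℝ) ^ 2 + (p.2 : ℝ) ^ 2 := by
        have hn : ‖((finTwoArrowEquiv ℤ).symm p : Fin 2 → ℤ)‖ ≤ max |(p.1 : ℝ)| |(p.2 : ℝ)| := by
          rw [pi_norm_le_iff_of_nonneg (le_max_of_le_left (abs_nonneg _))]
          intro i
          fin_cases i
          · simp [finTwoArrowEquiv, Int.norm_eq_abs]
          · simp [finTwoArrowEquiv, Int.norm_eq_abs]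
        have h3 : ‖((finTwoArrowEquiv ℤ).symm p : Fin 2 → ℤ)‖ ^ 2
            ≤ (max |(p.1 : ℝ)| |(p.2 : ℝ)|) ^ 2 := by gcongr
        refine h3.trans ?_
        rcases max_choice |(p.1 : ℝ)| |(p.2 : ℝ)| with h4 | h4
        · rw [h4, sq_abs]; nlinarith [sq_nonneg (p.2 : ℝ)]
        · rw [h4, sq_abs]; nlinarith [sq_nonneg (p.1 : ℝ)]
      have h5 : mu a c * ‖((finTwoArrowEquiv ℤ).symm p : Fin 2 → ℤ)‖ ^ 2 ≤ qf a b c p :=
        (mul_le_mul_of_nonneg_left hNle hmu.le).trans (h.qf_ge p)
      rw [one_div, ← Real.rpow_neg hq.le]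
      calc (qf a b c p) ^ (-σ) ≤ (mu a c * ‖((finTwoArrowEquiv ℤ).symm p : Fin 2 → ℤ)‖ ^ 2) ^ (-σ) :=
            Real.rpow_le_rpow_of_nonpos (by positivity) h5 (by linarith)
        _ = (mu a c) ^ (-σ) * ‖((finTwoArrowEquiv ℤ).symm p : Fin 2 → ℤ)‖ ^ (-(2 * σ)) := by
            rw [Real.mul_rpow hmu.le (by positivity), ← Real.rpow_natCast, ← Real.rpow_mul hN.le]
            congr 2
            push_cast
            ring

/-- For `Re s > 1` the completed function is given by the Epstein zeta series. -/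
theorem PD1.hasSum_Lam (h : PD1 a b c) {s : ℂ} (hs : 1 < s.re) :
    HasSum (fun p : ℤ × ℤ => (π : ℂ) ^ (-s) * Gamma s * 1 / (qf a b c p : ℂ) ^ s)
      (h.Lam0 s - 1 / s - 1 / (1 - s)) := by
  have hM := (h.pair.hasMellin (s := s) (by simpa [PD1.pair] using hs)).2
  have hΛ := h.pair.Λ₀_eq s
  have hval : mellin (fun t : ℝ => ((theta a b c t : ℝ) : ℂ) - 1) s
      = h.Lam0 s - 1 / s - 1 / (1 - s) := by
    have e1 : mellin (fun t : ℝ => ((theta a b c t : ℝ) : ℂ) - 1) s = h.pair.Λ s := hM
    rw [e1]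
    unfold PD1.Lam0
    rw [hΛ]
    have e2 : h.pair.f₀ = 1 := rfl
    have e3 : h.pair.g₀ = 1 := rfl
    have e4 : h.pair.ε = 1 := rfl
    have e5 : (h.pair.k : ℂ) = 1 := by simp [PD1.pair]
    rw [e2, e3, e4, e5, smul_eq_mul, smul_eq_mul]
    ring
  rw [← hval]
  refine hasSum_mellin_pi_mul₀ (a := fun _ : ℤ × ℤ => (1 : ℂ)) (p := fun p => qf a b c p)
    (fun p => h.qf_nonneg p) (by linarith) (fun t ht => ?_) ?_
  · have ht : 0 < t := ht
    have h1 := h.hasSum_theta_sub_one ht
    rw [← Complex.hasSum_ofReal] at h1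
    convert h1 using 1
    · funext p
      by_cases hp : p = 0
      · subst hp
        have : qf a b c 0 = 0 := by simp [qf]
        simp [this]
      · have := (h.qf_pos hp).ne'
        simp only [if_neg hp, if_neg this]
        push_cast
        ring
    · push_cast
      ring
  · simpa using summable_qf_rpow h hs

end EpsteinFE
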